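import Pool.Agent.V11232.CS.Basic

set_option autoImplicit false

namespace Pool.Agent.Results.MP_2e66a2_lc.Complement

open MvPowerSeries Pool.Agent.V11232.CS
open scoped Pointwise

/-- The characteristic series of a language in commuting variables: the coefficient of a monomial
`m` is the number of words of `L` with Parikh vector `m`. -/
noncomputable def chi {n : ℕ} (L : Language (Fin n)) : MvPowerSeries (Fin n) ℕ :=
  fun m => Nat.card {w : List (Fin n) // w ∈ L ∧ ∀ i, w.count i = m i}

/-! ### Counting words -/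

variable {n : ℕ}

theorem finite_words (m : Fin n →₀ ℕ) : {w : List (Fin n) | ∀ i, w.count i = m i}.Finite := by
  refine (List.finite_length_eq (Fin n) (∑ i, m i)).subset ?_
  intro w hw
  change w.length = _
  have : w.length = ∑ i, w.count i := by
    have := Multiset.sum_count_eq_card (s := Finset.univ) (m := (w : Multiset (Fin n)))
      (fun _ _ => Finset.mem_univ _)
    simpa using this.symm
  rw [this]
  exact Finset.sum_congr rfl fun i _ => hw i

/-- The words with Parikh vector `m`. -/
noncomputable def wf (m : Fin n →₀ ℕ) : Finset (List (Fin n)) := (finite_words m).toFinset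

theorem mem_wf {m : Fin n →₀ ℕ} {w : List (Fin n)} : w ∈ wf m ↔ ∀ i, w.count i = m i := by
  rw [wf, Set.Finite.mem_toFinset]
  rfl

open Classical in
theorem coeff_chi (L : Language (Fin n)) (m : Fin n →₀ ℕ) :
    coeff m (chi L) = ((wf m).filter (fun w => w ∈ L)).card := by
  change Nat.card {w : List (Fin n) // w ∈ L ∧ ∀ i, w.count i = m i} = _
  rw [← Nat.card_eq_finsetCard]
  refine Nat.card_congr (Equiv.subtypeEquivRight fun w => ?_)
  rw [Finset.mem_filter, mem_wf]
  exact and_comm

theorem card_wf (m : Fin n →₀ ℕ) : (wf m).card =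
    ∑ i, (if Finsupp.single i 1 ≤ m then (wf (m - Finsupp.single i 1)).card else 0) +
      (if m = 0 then 1 else 0) := by
  classical
  by_cases hm : m = 0
  · subst hm
    have h1 : wf (0 : Fin n →₀ ℕ) = {[]} := by
      ext w
      rw [mem_wf, Finset.mem_singleton]
      constructor
      · intro h
        rw [List.eq_nil_iff_forall_not_mem]
        intro a ha
        have := List.count_pos_iff.2 ha
        rw [h a] at this
        simp at this
      · rintro rfl
        simp
    rw [h1, if_pos rfl, Finset.card_singleton, Finset.sum_eq_zero]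
    intro i _
    rw [if_neg]
    intro h
    simpa using h i
  · rw [if_neg hm, add_zero]
    have h1 : wf m = Finset.univ.biUnion (fun i : Fin n =>
        if Finsupp.single i 1 ≤ m then (wf (m - Finsupp.single i 1)).image (List.cons i)
        else ∅) := by
      ext w
      rw [mem_wf, Finset.mem_biUnion]
      constructor
      · intro h
        cases w with
        | nil =>
          exfalso
          apply hm
          ext i
          rw [← h i]
          simp
        | cons i w =>
          have hle : Finsupp.single i 1 ≤ m := by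
            intro j
            by_cases hj : j = i
            · subst hj
              rw [← h j]
              simp
            · simp [Ne.symm hj]
          refine ⟨i, Finset.mem_univ _, ?_⟩
          rw [if_pos hle, Finset.mem_image]
          refine ⟨w, ?_, rfl⟩
          rw [mem_wf]
          intro j
          have := h j
          rw [List.count_cons] at this
          rw [Finsupp.tsub_apply, ← this]
          by_cases hj : j = i
          · subst hj
            simp
          · simp [Ne.symm hj]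
      · rintro ⟨i, -, hi⟩
        by_cases hle : Finsupp.single i 1 ≤ m
        · rw [if_pos hle, Finset.mem_image] at hi
          obtain ⟨v, hv, rfl⟩ := hi
          rw [mem_wf] at hv
          intro j
          rw [List.count_cons, hv j, Finsupp.tsub_apply]
          by_cases hj : j = i
          · subst hj
            have := hle j
            simp only [Finsupp.single_eq_same] at this
            simp
            omega
          · simp [Ne.symm hj]
        · rw [if_neg hle] at hi
          simp at hi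
    rw [h1, Finset.card_biUnion]
    · refine Finset.sum_congr rfl fun i _ => ?_
      split_ifs
      · rw [Finset.card_image_of_injective _ (List.cons_injective)]
      · rfl
    · intro i _ j _ hij
      change Disjoint _ _
      rw [Finset.disjoint_left]
      intro w hw hw'
      beta_reduce at hw hw'
      split_ifs at hw hw' with h1 h2
      · rw [Finset.mem_image] at hw hw'
        obtain ⟨v, -, rfl⟩ := hw
        obtain ⟨v', -, h⟩ := hw'
        rw [List.cons.injEq] at h
        exact hij h.1.symm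
      all_goals simp at hw hw'

theorem coeff_chi_top (m : Fin n →₀ ℕ) : coeff m (chi (⊤ : Language (Fin n))) = (wf m).card := by
  classical
  rw [coeff_chi, Finset.filter_true_of_mem]
  intro w _
  exact trivial

theorem chi_top_eq : chi (⊤ : Language (Fin n)) =
    (∑ i, X i) * chi (⊤ : Language (Fin n)) + 1 := by
  classical
  ext m
  rw [map_add, Finset.sum_mul, map_sum, coeff_chi_top, card_wf, coeff_one]
  congr 1
  refine Finset.sum_congr rfl fun i _ => ?_
  rw [X, coeff_monomial_mul, one_mul, coeff_chi_top]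

/-- Every series below the series of all words is the series of a language. -/
theorem exists_language (F : MvPowerSeries (Fin n) ℕ)
    (h : ∀ m, coeff m F ≤ coeff m (chi (⊤ : Language (Fin n)))) :
    ∃ L : Language (Fin n), chi L = F ∧
      ∀ m, coeff m (chi Lᶜ) = coeff m (chi (⊤ : Language (Fin n))) - coeff m F := by
  classical
  have h' : ∀ m, ∃ A ⊆ wf m, A.card = coeff m F := fun m =>
    Finset.exists_subset_card_eq (by rw [← coeff_chi_top]; exact h m)
  choose A hA hAc using h'
  let pk : List (Fin n) → (Fin n →₀ ℕ) := fun w => Multiset.toFinsupp (w : Multiset (Fin n))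
  have hpk : ∀ w m, w ∈ wf m → pk w = m := by
    intro w m hw
    ext i
    rw [mem_wf] at hw
    rw [← hw i]
    simp [pk]
  let L : Language (Fin n) := {w | w ∈ A (pk w)}
  have hL : ∀ m, (wf m).filter (fun w => w ∈ L) = A m := by
    intro m
    ext w
    rw [Finset.mem_filter]
    constructor
    · rintro ⟨h1, h2⟩
      have h3 : w ∈ A (pk w) := h2
      rwa [hpk w m h1] at h3
    · intro h1
      refine ⟨hA m h1, ?_⟩
      change w ∈ A (pk w)
      rw [hpk w m (hA m h1)]
      exact h1
  refine ⟨L, ?_, ?_⟩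
  · ext m
    rw [coeff_chi, hL, hAc]
  · intro m
    rw [coeff_chi]
    have : (wf m).filter (fun w => w ∈ Lᶜ) = wf m \ (wf m).filter (fun w => w ∈ L) := by
      ext w
      rw [Finset.mem_filter, Finset.mem_sdiff, Finset.mem_filter]
      change w ∈ wf m ∧ w ∉ L ↔ _
      tauto
    rw [this, hL, Finset.card_sdiff_of_subset (hA m), hAc, coeff_chi_top]

/-! ### The series -/

/-- All words over five letters. -/
noncomputable def S : MvPowerSeries (Fin 5) ℕ := chi (⊤ : Language (Fin 5))

theorem S_eq : S = (X 0 + X 1 + X 2 + X 3 + X 4) * S + 1 := by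
  have h := chi_top_eq (n := 5)
  rw [Fin.sum_univ_five] at h
  exact h

/-- The sum of the letters other than `3`. -/
noncomputable def t : MvPowerSeries (Fin 5) ℕ := X 0 + X 1 + X 2 + X 4

theorem coeff_t : coeff 0 t = 0 := by
  simp [t]

theorem isRational_t : IsRational t :=
  (((isRational_X 0).add (isRational_X 1)).add (isRational_X 2)).add (isRational_X 4)

/-- The words without the letter `3`. -/
noncomputable def T : MvPowerSeries (Fin 5) ℕ := starS t

theorem T_eq : T = t * T + 1 := by
  have := starS_eq coeff_t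
  rw [add_comm] at this
  exact this

theorem isRational_T : IsRational T := isRational_t.star coeff_t

theorem S_eq_star : S = starS (X 0 + X 1 + X 2 + X 3 + X 4) :=
  eq_starS (by simp) S_eq

theorem isRational_S : IsRational S := by
  rw [S_eq_star]
  refine IsRational.star ?_ (by simp)
  exact ((((isRational_X 0).add (isRational_X 1)).add (isRational_X 2)).add
    (isRational_X 3)).add (isRational_X 4)

theorem S_eq_T : S = T * (X 3 * S + 1) := by
  refine eq_starS_mul coeff_t ?_
  calc S = (X 0 + X 1 + X 2 + X 3 + X 4) * S + 1 := S_eq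
    _ = t * S + (X 3 * S + 1) := by rw [t]; ring

theorem sub_al (i : Fin 5) (ti : MvPowerSeries (Fin 5) ℕ) (hti : IsRational ti)
    (h : t = X i + ti) : Sub (al i) T := by
  have h0 : coeff 0 (X i : MvPowerSeries (Fin 5) ℕ) = 0 := coeff_zero_X i
  have h1 : T = starS (X i) * (ti * T + 1) := by
    refine eq_starS_mul h0 ?_
    calc T = t * T + 1 := T_eq
      _ = X i * T + (ti * T + 1) := by rw [h]; ring
  rw [← eq_starS h0 (al_eq i)] at h1
  refine ⟨al i * (ti * T), (isRational_al i).mul (hti.mul isRational_T), ?_⟩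
  calc al i + al i * (ti * T) = al i * (ti * T + 1) := by ring
    _ = T := h1.symm

theorem sub_one_add (i : Fin 5) (ti : MvPowerSeries (Fin 5) ℕ) (hti : IsRational ti)
    (h : t = X i + ti) : Sub (1 + X i) T := by
  refine ⟨ti + t * (t * T), hti.add (isRational_t.mul (isRational_t.mul isRational_T)), ?_⟩
  calc 1 + X i + (ti + t * (t * T)) = (X i + ti) + t * (t * T) + 1 := by ring
    _ = t * (t * T + 1) + 1 := by rw [← h]; ring
    _ = T := by rw [← T_eq, ← T_eq]

theorem sub_one : Sub (1 : MvPowerSeries (Fin 5) ℕ) T :=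
  ⟨t * T, isRational_t.mul isRational_T, by rw [add_comm]; exact T_eq.symm⟩

/-- The key step. -/
theorem up {Z P : MvPowerSeries (Fin 5) ℕ} (hZ : IsRational Z) (h : Sub Z T) (hP : Sub P S) :
    Sub (X 3 * (Z * P)) S := by
  have h1 : Sub (X 3 * (Z * P)) (X 3 * (Z * S)) :=
    (hP.mul_left hZ).mul_left (isRational_X 3)
  refine h1.trans ?_
  obtain ⟨R, hR, hT⟩ := h
  refine ⟨T + R * (X 3 * S), isRational_T.add (hR.mul ((isRational_X 3).mul isRational_S)), ?_⟩
  calc X 3 * (Z * S) + (T + R * (X 3 * S)) = (Z + R) * (X 3 * S) + T := by ring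
    _ = T * (X 3 * S + 1) := by rw [hT]; ring
    _ = S := S_eq_T.symm

theorem sub_one_S : Sub (1 : MvPowerSeries (Fin 5) ℕ) S := by
  refine ⟨(X 0 + X 1 + X 2 + X 3 + X 4) * S, ?_, ?_⟩
  · exact IsRational.mul (((((isRational_X 0).add (isRational_X 1)).add (isRational_X 2)).add
      (isRational_X 3)).add (isRational_X 4)) isRational_S
  · rw [add_comm]
    exact S_eq.symm

theorem t0 : t = X 0 + (X 1 + X 2 + X 4) := by rw [t]; ring
theorem t1 : t = X 1 + (X 0 + X 2 + X 4) := by rw [t]; ring
theorem t2 : t = X 2 + (X 0 + X 1 + X 4) := by rw [t]; ring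

theorem r0 : IsRational (X 1 + X 2 + X 4 : MvPowerSeries (Fin 5) ℕ) :=
  ((isRational_X 1).add (isRational_X 2)).add (isRational_X 4)
theorem r1 : IsRational (X 0 + X 2 + X 4 : MvPowerSeries (Fin 5) ℕ) :=
  ((isRational_X 0).add (isRational_X 2)).add (isRational_X 4)
theorem r2 : IsRational (X 0 + X 1 + X 4 : MvPowerSeries (Fin 5) ℕ) :=
  ((isRational_X 0).add (isRational_X 1)).add (isRational_X 4)

theorem a0 : Sub (al 0) T := sub_al 0 _ r0 t0
theorem a1 : Sub (al 1) T := sub_al 1 _ r1 t1
theorem a2 : Sub (al 2) T := sub_al 2 _ r2 t2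
theorem b0 : Sub (1 + X 0) T := sub_one_add 0 _ r0 t0
theorem b1 : Sub (1 + X 1) T := sub_one_add 1 _ r1 t1
theorem b2 : Sub (1 + X 2) T := sub_one_add 2 _ r2 t2

theorem rb (i : Fin 5) : IsRational (1 + X i : MvPowerSeries (Fin 5) ℕ) :=
  isRational_one.add (isRational_X i)

/-- `∑ f(i) g(j) h(k) a^i b^j c^k` -/
noncomputable def tri (f g h : ℕ → ℕ) : MvPowerSeries (Fin 5) ℕ :=
  uni 0 f * (uni 1 g * uni 2 h)

theorem coeff_tri (f g h : ℕ → ℕ) (m : Fin 5 →₀ ℕ) :
    coeff m (tri f g h) = if m 3 = 0 ∧ m 4 = 0 then f (m 0) * (g (m 1) * h (m 2)) else 0 := by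
  have hc : ∀ m : Fin 5 →₀ ℕ, coeff m (uni 2 h : MvPowerSeries (Fin 5) ℕ) ≠ 0 →
      ∀ j, j ≠ 2 → m j = 0 := by
    intro m hm
    by_contra hcon
    rw [coeff_uni, if_neg hcon] at hm
    exact hm rfl
  have hbc : ∀ m : Fin 5 →₀ ℕ, coeff m (uni 1 g * uni 2 h : MvPowerSeries (Fin 5) ℕ) =
      g (m 1) * coeff (m.erase 1) (uni 2 h) :=
    coeff_uni_mul 1 g (uni 2 h) (fun m hm => hc m hm 1 (by decide))
  rw [tri, coeff_uni_mul 0 f _ (fun m hm => by
    rw [hbc] at hm
    have := hc _ (right_ne_zero_of_mul hm) 0 (by decide)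
    rwa [Finsupp.erase_ne (by decide)] at this), hbc, coeff_uni]
  have e1 : (m.erase 0) 1 = m 1 := Finsupp.erase_ne (by decide)
  have e2 : ((m.erase 0).erase 1) 2 = m 2 := by
    rw [Finsupp.erase_ne (by decide), Finsupp.erase_ne (by decide)]
  have e3 : (∀ j, j ≠ 2 → ((m.erase 0).erase 1) j = 0) ↔ (m 3 = 0 ∧ m 4 = 0) := by
    constructor
    · intro h
      have h3 := h 3 (by decide)
      have h4 := h 4 (by decide)
      rw [Finsupp.erase_ne (by decide), Finsupp.erase_ne (by decide)] at h3 h4
      exact ⟨h3, h4⟩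
    · rintro ⟨h3, h4⟩ j hj
      fin_cases j
      · change ((m.erase 0).erase 1) 0 = 0
        rw [Finsupp.erase_ne (by decide), Finsupp.erase_same]
      · change ((m.erase 0).erase 1) 1 = 0
        rw [Finsupp.erase_same]
      · exact absurd rfl hj
      · change ((m.erase 0).erase 1) 3 = 0
        rw [Finsupp.erase_ne (by decide), Finsupp.erase_ne (by decide)]
        exact h3
      · change ((m.erase 0).erase 1) 4 = 0
        rw [Finsupp.erase_ne (by decide), Finsupp.erase_ne (by decide)]
        exact h4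
  rw [e1, e2]
  by_cases hm : m 3 = 0 ∧ m 4 = 0
  · rw [if_pos (e3.2 hm), if_pos hm]
  · rw [if_neg (fun h => hm (e3.1 h)), if_neg hm, mul_zero, mul_zero]

/-- The marker monomial. -/
noncomputable def n0 : Fin 5 →₀ ℕ := Finsupp.single 3 9 + Finsupp.single 4 1

theorem mono_n0 (k : ℕ) : (monomial n0 k : MvPowerSeries (Fin 5) ℕ) =
    (X 3) ^ 9 * X 4 * (monomial 0 k) := by
  rw [X_pow_eq, X, monomial_mul_monomial, monomial_mul_monomial]
  simp [n0]

/-- The series `P`. -/
noncomputable def P : MvPowerSeries (Fin 5) ℕ :=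
  monomial n0 1 * (tri (fun n => (n + 1) ^ 2) (fun n => (n + 1) ^ 2) (fun _ => 1) +
    tri (fun _ => 1) (fun _ => 1) (fun n => (n + 1) ^ 2))

/-- The series `Q`. -/
noncomputable def Q : MvPowerSeries (Fin 5) ℕ :=
  monomial n0 2 * tri (fun n => n + 1) (fun n => n + 1) (fun n => n + 1)

theorem isRational_Q : IsRational Q := by
  refine (isRational_monomial _ _).mul ?_
  unfold tri
  rw [uni_lin, uni_lin, uni_lin]
  exact ((isRational_al _).mul (isRational_al _)).mul
    (((isRational_al _).mul (isRational_al _)).mul ((isRational_al _).mul (isRational_al _)))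

theorem sub_P : Sub P S := by
  have h1 : Sub (X 3 ^ 9 * tri (fun n => (n + 1) ^ 2) (fun n => (n + 1) ^ 2) (fun _ => 1)) S := by
    have e : X 3 ^ 9 * tri (fun n => (n + 1) ^ 2) (fun n => (n + 1) ^ 2) (fun _ => 1) =
        X 3 * ((1 + X 0) * (X 3 * (al 0 * (X 3 * (al 0 * (X 3 * (al 0 * (X 3 * ((1 + X 1) *
        (X 3 * (al 1 * (X 3 * (al 1 * (X 3 * (al 1 * (X 3 * (al 2 * 1))))))))))))))))) := by
      unfold tri
      rw [uni_sq, uni_sq]
      change X 3 ^ 9 * ((1 + X 0) * (al 0 * (al 0 * al 0)) *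
        ((1 + X 1) * (al 1 * (al 1 * al 1)) * al 2)) = _
      ring
    rw [e]
    refine up (rb 0) b0 (up (isRational_al _) a0 (up (isRational_al _) a0
      (up (isRational_al _) a0 (up (rb 1) b1 (up (isRational_al _) a1 (up (isRational_al _) a1
      (up (isRational_al _) a1 (up (isRational_al _) a2 sub_one_S))))))))
  have h2 : Sub (X 3 ^ 8 * tri (fun _ => 1) (fun _ => 1) (fun n => (n + 1) ^ 2)) S := by
    have e : X 3 ^ 8 * tri (fun _ => 1) (fun _ => 1) (fun n => (n + 1) ^ 2) =
        X 3 * (al 0 * (X 3 * (al 1 * (X 3 * ((1 + X 2) * (X 3 * (al 2 * (X 3 * (al 2 *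
        (X 3 * (al 2 * (X 3 * (1 * (X 3 * (1 * 1))))))))))))))) := by
      unfold tri
      rw [uni_sq]
      change X 3 ^ 8 * (al 0 * (al 1 * ((1 + X 2) * (al 2 * (al 2 * al 2))))) = _
      ring
    rw [e]
    exact up (isRational_al _) a0 (up (isRational_al _) a1 (up (rb 2) b2
      (up (isRational_al _) a2 (up (isRational_al _) a2 (up (isRational_al _) a2
      (up isRational_one sub_one (up isRational_one sub_one sub_one_S)))))))
  have hX4 : Sub (X 4 * S) S := by
    refine ⟨(X 0 + X 1 + X 2 + X 3) * S + 1, ?_, ?_⟩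
    · exact (IsRational.mul ((((isRational_X 0).add (isRational_X 1)).add (isRational_X 2)).add
        (isRational_X 3)) isRational_S).add isRational_one
    · calc X 4 * S + ((X 0 + X 1 + X 2 + X 3) * S + 1)
          = (X 0 + X 1 + X 2 + X 3 + X 4) * S + 1 := by ring
        _ = S := S_eq.symm
  have hX34 : Sub (X 4 * S + X 3 * S) S := by
    refine ⟨(X 0 + X 1 + X 2) * S + 1, ?_, ?_⟩
    · exact (IsRational.mul (((isRational_X 0).add (isRational_X 1)).add (isRational_X 2))
        isRational_S).add isRational_one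
    · calc X 4 * S + X 3 * S + ((X 0 + X 1 + X 2) * S + 1)
          = (X 0 + X 1 + X 2 + X 3 + X 4) * S + 1 := by ring
        _ = S := S_eq.symm
  have h3 := (h2.mul_left (isRational_X 4)).trans hX4
  have h4 := ((h1.mul_left (isRational_X 4)).add (h3.mul_left (isRational_X 3))).trans hX34
  have e : P = X 4 * (X 3 ^ 9 * tri (fun n => (n + 1) ^ 2) (fun n => (n + 1) ^ 2) (fun _ => 1)) +
      X 3 * (X 4 * (X 3 ^ 8 * tri (fun _ => 1) (fun _ => 1) (fun n => (n + 1) ^ 2))) := by
    rw [P, mono_n0]
    have : (monomial 0 1 : MvPowerSeries (Fin 5) ℕ) = 1 := rfl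
    rw [this]
    ring
  rw [e]
  exact h4

theorem coeff_P (m : Fin 5 →₀ ℕ) : coeff m P = if n0 ≤ m ∧ (m - n0) 3 = 0 ∧ (m - n0) 4 = 0 then
    ((m - n0) 0 + 1) ^ 2 * ((m - n0) 1 + 1) ^ 2 + ((m - n0) 2 + 1) ^ 2 else 0 := by
  classical
  rw [P, coeff_monomial_mul, one_mul, map_add, coeff_tri, coeff_tri]
  by_cases h1 : n0 ≤ m
  · by_cases h2 : (m - n0) 3 = 0 ∧ (m - n0) 4 = 0
    · rw [if_pos h1, if_pos h2, if_pos h2, if_pos ⟨h1, h2⟩]
      ring
    · rw [if_pos h1, if_neg h2, if_neg h2, if_neg (fun h => h2 h.2)]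
  · rw [if_neg h1, if_neg (fun h => h1 h.1)]

theorem coeff_Q (m : Fin 5 →₀ ℕ) : coeff m Q = if n0 ≤ m ∧ (m - n0) 3 = 0 ∧ (m - n0) 4 = 0 then
    2 * (((m - n0) 0 + 1) * ((m - n0) 1 + 1) * ((m - n0) 2 + 1)) else 0 := by
  classical
  rw [Q, coeff_monomial_mul, coeff_tri]
  by_cases h1 : n0 ≤ m
  · by_cases h2 : (m - n0) 3 = 0 ∧ (m - n0) 4 = 0
    · rw [if_pos h1, if_pos h2, if_pos ⟨h1, h2⟩]
      ring
    · rw [if_pos h1, if_neg h2, if_neg (fun h => h2 h.2), mul_zero]
  · rw [if_neg h1, if_neg (fun h => h1 h.1)]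

theorem Q_le_P (m : Fin 5 →₀ ℕ) : coeff m Q ≤ coeff m P := by
  rw [coeff_P, coeff_Q]
  split_ifs
  · generalize (m - n0) 0 + 1 = u
    generalize (m - n0) 1 + 1 = v
    generalize (m - n0) 2 + 1 = w
    zify
    nlinarith [sq_nonneg ((u : ℤ) * v - w)]
  · exact le_rfl

/-! ### The set of shifted squares is not semilinear -/

theorem not_semilinear_sq : ¬ IsSemilinearSet {k : ℕ | ∃ i, (i + 1) ^ 2 = k + 1} := by
  rintro ⟨C, hC, hlin, heq⟩
  have hper : ∀ t ∈ C, t.Finite := by
    intro t ht
    obtain ⟨a, s, hs, rfl⟩ := hlin t ht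
    have hz : ∀ p ∈ s, p = 0 := by
      intro p hp
      by_contra hp0
      have hmem : ∀ k : ℕ, ∃ i, (i + 1) ^ 2 = (a + k * p) + 1 := by
        intro k
        have h1 : a + k * p ∈ a +ᵥ (AddSubmonoid.closure s : Set ℕ) := by
          refine ⟨k * p, ?_, rfl⟩
          have := (AddSubmonoid.closure s).nsmul_mem (AddSubmonoid.subset_closure hp) k
          simpa using this
        have h2 : a + k * p ∈ {k : ℕ | ∃ i, (i + 1) ^ 2 = k + 1} := by
          rw [heq]
          exact ⟨_, ht, h1⟩
        exact h2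
      obtain ⟨i, hi⟩ := hmem (p * p)
      obtain ⟨j, hj⟩ := hmem (p * p + 1)
      have hlt : i < j := by
        by_contra hge
        have : (j + 1) ^ 2 ≤ (i + 1) ^ 2 := Nat.pow_le_pow_left (by omega) 2
        have : (p * p + 1) * p = p * p * p + p := by ring
        omega
      have h3 : (i + 1 + 1) ^ 2 ≤ (j + 1) ^ 2 := Nat.pow_le_pow_left (by omega) 2
      have h4 : (p * p + 1) * p = p * p * p + p := by ring
      have h5 : (i + 1 + 1) ^ 2 = (i + 1) ^ 2 + 2 * (i + 1) + 1 := by ring
      have h6 : i + 1 < p := by omega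
      have h7 : (i + 1) ^ 2 < p * p := by nlinarith
      have h8 : p * p ≤ p * p * p := by nlinarith [Nat.pos_of_ne_zero hp0]
      omega
    have hcl : AddSubmonoid.closure s = ⊥ := by
      rw [eq_bot_iff, AddSubmonoid.closure_le]
      intro p hp
      rw [hz p hp]
      exact AddSubmonoid.zero_mem _
    rw [hcl]
    simp
  have hfin : {k : ℕ | ∃ i, (i + 1) ^ 2 = k + 1}.Finite := by
    rw [heq]
    exact hC.sUnion hper
  refine Set.infinite_of_injective_forall_mem (f := fun i : ℕ => (i + 1) ^ 2 - 1) ?_ ?_ hfin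
  · intro i j hij
    simp only at hij
    have h1 : 1 ≤ (i + 1) ^ 2 := Nat.one_le_pow _ _ (by omega)
    have h2 : 1 ≤ (j + 1) ^ 2 := Nat.one_le_pow _ _ (by omega)
    have h3 : (i + 1) ^ 2 = (j + 1) ^ 2 := by omega
    have := Nat.pow_left_injective (n := 2) (by omega) h3
    omega
  · intro i
    refine ⟨i, ?_⟩
    have h1 : 1 ≤ (i + 1) ^ 2 := Nat.one_le_pow _ _ (by omega)
    omega

/-- The direction `a b`. -/
noncomputable def d01 : Fin 5 →₀ ℕ := Finsupp.single 0 1 + Finsupp.single 1 1

/-- The direction `c`. -/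
noncomputable def d2 : Fin 5 →₀ ℕ := Finsupp.single 2 1

theorem apply_pt (i k : ℕ) : ∀ m, m = n0 + (i • d01 + k • d2) →
    n0 ≤ m ∧ (m - n0) 0 = i ∧ (m - n0) 1 = i ∧ (m - n0) 2 = k ∧ (m - n0) 3 = 0 ∧
      (m - n0) 4 = 0 ∧ m 2 = k := by
  rintro m rfl
  refine ⟨le_self_add, ?_, ?_, ?_, ?_, ?_, ?_⟩
  · rw [add_tsub_cancel_left]; simp [d01, d2]
  · rw [add_tsub_cancel_left]; simp [d01, d2]
  · rw [add_tsub_cancel_left]; simp [d01, d2]
  · rw [add_tsub_cancel_left]; simp [d01, d2]
  · rw [add_tsub_cancel_left]; simp [d01, d2]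
  · simp [n0, d01, d2]

/-- There are a finite alphabet and a language whose characteristic series in commuting variables
is rational while the characteristic series of its complement is not rational. -/
theorem result : ∃ (n : ℕ) (L : Language (Fin n)), IsRational (chi L) ∧ ¬ IsRational (chi Lᶜ) := by
  obtain ⟨R, hR, hPR⟩ := sub_P
  have hF : ∀ m, coeff m (R + Q) ≤ coeff m (chi (⊤ : Language (Fin 5))) := by
    intro m
    change _ ≤ coeff m S
    rw [← hPR, map_add, map_add]
    have := Q_le_P m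
    omega
  obtain ⟨L, hL, hLc⟩ := exists_language (R + Q) hF
  refine ⟨5, L, ?_, ?_⟩
  · rw [hL]
    exact hR.add isRational_Q
  · intro hrat
    have hsl := semilinear_supp hrat
    have hcoef : ∀ m, coeff m (chi Lᶜ) = coeff m P - coeff m Q := by
      intro m
      rw [hLc m]
      change coeff m S - _ = _
      rw [← hPR, map_add, map_add]
      omega
    have hD : IsSemilinearSet (n0 +ᵥ (AddSubmonoid.closure {d01, d2} : Set (Fin 5 →₀ ℕ))) :=
      IsLinearSet.isSemilinearSet ⟨n0, {d01, d2}, by simp, rfl⟩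
    have hE := (hD.sdiff hsl).image (Finsupp.applyAddHom (2 : Fin 5))
    apply not_semilinear_sq
    convert hE using 1
    ext k
    constructor
    · rintro ⟨i, hi⟩
      refine ⟨n0 + (i • d01 + k • d2), ⟨?_, ?_⟩, ?_⟩
      · exact ⟨i • d01 + k • d2, (AddSubmonoid.mem_closure_pair _ _ _).2 ⟨i, k, rfl⟩, rfl⟩
      · intro hmem
        apply hmem
        obtain ⟨h1, h2, h3, h4, h5, h6, h7⟩ := apply_pt i k _ rfl
        rw [hcoef, coeff_P, coeff_Q, if_pos ⟨h1, h5, h6⟩, if_pos ⟨h1, h5, h6⟩, h2, h3, h4]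
        have : (i + 1) ^ 2 * (i + 1) ^ 2 + (k + 1) ^ 2 = 2 * ((i + 1) * (i + 1) * (k + 1)) := by
          rw [← hi]; ring
        omega
      · exact (apply_pt i k _ rfl).2.2.2.2.2.2
    · rintro ⟨m, ⟨⟨z, hz, rfl⟩, hm⟩, rfl⟩
      obtain ⟨i, k, rfl⟩ := (AddSubmonoid.mem_closure_pair _ _ _).1 hz
      change n0 + (i • d01 + k • d2) ∉ supp (chi Lᶜ) at hm
      obtain ⟨h1, h2, h3, h4, h5, h6, h7⟩ := apply_pt i k _ rfl
      have hm' : coeff (n0 + (i • d01 + k • d2)) (chi Lᶜ) = 0 := by
        by_contra hne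
        exact hm hne
      rw [hcoef, coeff_P, coeff_Q, if_pos ⟨h1, h5, h6⟩, if_pos ⟨h1, h5, h6⟩, h2, h3, h4] at hm'
      refine ⟨i, ?_⟩
      change (i + 1) ^ 2 = (n0 + (i • d01 + k • d2)) 2 + 1
      rw [h7]
      have h8 : (i + 1) ^ 2 * (i + 1) ^ 2 + (k + 1) ^ 2 ≤ 2 * ((i + 1) * (i + 1) * (k + 1)) := by
        omega
      zify at h8 ⊢
      have h9 : ((i + 1 : ℤ) ^ 2 - (k + 1)) ^ 2 ≤ 0 := by nlinarith
      have h10 : ((i + 1 : ℤ) ^ 2 - (k + 1)) = 0 := by
        have := sq_nonneg ((i + 1 : ℤ) ^ 2 - (k + 1))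
        exact pow_eq_zero_iff (n := 2) (by omega) |>.1 (le_antisymm h9 this)
      linarith

end Pool.Agent.Results.MP_2e66a2_lc.Complement
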